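import Mathlib
import Pool.Agent.Helper32.ExpN.Forms
import Pool.Agent.Helper32.ExpN.LinAlg
import Pool.Agent.Helper32.ExpN.Indep

/-!
The contradiction from `d + 1` exceptional integers in a short window. This is the file
`Pool/Agent/Helper32/ExpN/Core.lean` of helper32 with a weaker hypothesis on the size of `ξ`.
-/

namespace Pool.Agent.Helper66.ER

open Pool.Agent.Helper32.ExpN

open Polynomial Finset
open scoped Nat

theorem window_core {d r : ℕ} (hdr : r + 2 ≤ d + 1)
    (n : Fin (d + 1) → ℕ) (hn : StrictMono n) (G : ℕ) (hG1 : 1 ≤ G) (hG : ∀ m, n m ≤ n 0 + G)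
    (p : ℕ) (hp : p.Prime) (hGp : G < p)
    (ξ X1 δ : ℝ) (P : ℝ[X]) (hP : P.natDegree ≤ r) (hδ0 : 0 ≤ δ) (hδ1 : δ ≤ 1)
    (hξ : ((r + 2)! : ℝ) * δ < |ξ| * Real.exp (n 0)) (hX1 : |ξ| * Real.exp (n 0) ≤ X1) (hX11 : 1 ≤ X1)
    (b : Fin (d + 1) → ℤ)
    (hb : ∀ m, |ξ * Real.exp (n m) - P.eval (n m : ℝ) - b m| ≤ δ)
    (Q I : ℝ) (hQ1 : 1 ≤ Q)
    (hQ : (((d + 1) * p)! : ℝ) * (1 + G) ^ ((d + 1) * p) / ((p - 1)! : ℝ) ≤ Q)
    (hI : Real.exp G * (G : ℝ) ^ ((d + 1) * p) / ((p - 1)! : ℝ) ≤ I) (hI1 : I ≤ 1)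
    (hfin : ((d + 1)! : ℝ) * ((2 * X1) * ((Real.exp G * (G : ℝ) ^ r) ^ (r + 1) *
      I ^ (d + 1 - (r + 2))) + (d + 1) * (Q * ((2 * Real.exp G * δ) *
      ((Real.exp G * (G : ℝ) ^ r) ^ (r + 1) * I ^ (d + 1 - (r + 2) - 1))))) < 1) : False := by
  classical
  have hn0 : ∀ m, n 0 ≤ n m := fun m => hn.monotone (Fin.zero_le m)
  set j : Fin (d + 1) → ℕ := fun m => n m - n 0 with hj
  have hjn : ∀ m, (n m : ℝ) = j m + n 0 := by
    intro m
    have : n m = j m + n 0 := by simp only [hj]; have := hn0 m; omega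
    rw [this]; push_cast; ring
  have hj0 : j 0 = 0 := by simp [hj]
  have hjmono : StrictMono j := by
    intro a c hac
    simp only [hj]
    have := hn hac
    have := hn0 a
    omega
  have hjG : ∀ m, j m ≤ G := by
    intro m
    simp only [hj]
    have := hG m
    omega
  set X : ℝ := ξ * Real.exp (n 0) with hX
  set P' : ℝ[X] := P.comp (Polynomial.X + C (n 0 : ℝ)) with hP'
  have hP'deg : P'.natDegree ≤ r := by
    rw [hP']
    refine natDegree_comp_le.trans ?_
    rw [natDegree_X_add_C, mul_one]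
    exact hP
  have hP'eval : ∀ m, P'.eval (j m : ℝ) = P.eval (n m : ℝ) := by
    intro m
    rw [hP', eval_comp, eval_add, eval_X, eval_C, hjn m]
  have hXe : ∀ m, X * Real.exp (j m) = ξ * Real.exp (n m) := by
    intro m
    rw [hX, hjn m, mul_assoc, ← Real.exp_add]
    congr 2
    ring
  have hb' : ∀ m, |X * Real.exp (j m) - P'.eval (j m : ℝ) - b m| ≤ δ := by
    intro m
    rw [hP'eval, hXe]
    exact hb m
  have hXabs : |ξ| * Real.exp (n 0) = |X| := by
    rw [hX, abs_mul, abs_of_pos (Real.exp_pos _)]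
  have hXX1 : |X| ≤ X1 := by
    rw [hX, abs_mul, abs_of_pos (Real.exp_pos _)]
    exact hX1
  have hindep := Wvec_indep (r := r) hdr j hjmono b X δ P' hP'deg hb' (hξ.trans_eq hXabs)
  obtain ⟨T, hTdet, hTQ, hTI⟩ := hermite_forms j hjmono.injective hj0 p hp G hjG hGp
  obtain ⟨B, ph, hph, hBdet, hB1, hB2⟩ := exchange T hTdet _ _ hindep
  -- the real matrix
  set M0 : Matrix (Fin (d + 1)) (Fin (d + 1)) ℝ := B.map (Int.cast) with hM0
  have hM0det : M0.det = (B.det : ℝ) := by
    rw [hM0]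
    have := (RingHom.map_det (Int.castRingHom ℝ) B).symm
    simpa using this
  have h1 : 1 ≤ |M0.det| := by
    rw [hM0det]
    have := Int.one_le_abs hBdet
    exact_mod_cast this
  set c : Fin (d + 1) → ℝ := fun k => if k = ph 0 then 1 else
    ∑ t : Fin (r + 1), if ph t.succ = k then P'.coeff (t : ℕ) else 0 with hc
  set M1 : Matrix (Fin (d + 1)) (Fin (d + 1)) ℝ :=
    M0.updateRow (ph 0) (∑ k, c k • M0 k) with hM1
  have hM1det : M1.det = M0.det := by
    rw [hM1, Matrix.det_updateRow_sum]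
    simp [hc]
  have hM0row0 : ∀ m, M0 (ph 0) m = b m := by
    intro m
    rw [hM0, Matrix.map_apply, hB1 0]
    simp [Wvec]
  have hM0rowt : ∀ (t : Fin (r + 1)) m, M0 (ph t.succ) m = (j m : ℝ) ^ (t : ℕ) := by
    intro t m
    rw [hM0, Matrix.map_apply, hB1 t.succ]
    simp [Wvec]
  have hne : ∀ t : Fin (r + 1), ph t.succ ≠ ph 0 := fun t h => Fin.succ_ne_zero t (hph h)
  have hM1row0 : ∀ m, M1 (ph 0) m = b m + P'.eval (j m : ℝ) := by
    intro m
    rw [hM1, Matrix.updateRow_self, Finset.sum_apply]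
    simp only [Pi.smul_apply, smul_eq_mul]
    rw [← Finset.add_sum_erase _ _ (Finset.mem_univ (ph 0)), hM0row0]
    have e1 : c (ph 0) = 1 := by simp [hc]
    rw [e1, one_mul]
    congr 1
    have e2 : ∀ k ∈ Finset.univ.erase (ph 0), c k * M0 k m =
        ∑ t : Fin (r + 1), if ph t.succ = k then P'.coeff (t : ℕ) * M0 (ph t.succ) m else 0 := by
      intro k hk
      have hk' := Finset.ne_of_mem_erase hk
      simp only [hc, hk', if_false]
      rw [Finset.sum_mul]
      apply Finset.sum_congr rfl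
      intro t _
      by_cases htk : ph t.succ = k
      · rw [if_pos htk, if_pos htk, htk]
      · rw [if_neg htk, if_neg htk, zero_mul]
    rw [Finset.sum_congr rfl e2, Finset.sum_comm]
    have e3 : ∀ t : Fin (r + 1), (∑ k ∈ Finset.univ.erase (ph 0),
        if ph t.succ = k then P'.coeff (t : ℕ) * M0 (ph t.succ) m else 0) =
        P'.coeff (t : ℕ) * (j m : ℝ) ^ (t : ℕ) := by
      intro t
      rw [Finset.sum_ite_eq, if_pos (by simp [hne t]), hM0rowt]
    rw [Finset.sum_congr rfl (fun t _ => e3 t), eval_eq_sum_range' (lt_of_le_of_lt hP'deg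
      (Nat.lt_succ_self r))]
    exact Fin.sum_univ_eq_sum_range (fun i => P'.coeff i * (j m : ℝ) ^ i) (r + 1)
  have hM1row : ∀ i, i ≠ ph 0 → ∀ m, M1 i m = M0 i m := by
    intro i hi m
    rw [hM1, Matrix.updateRow_ne hi]
  -- column operations
  set e : Fin (d + 1) → ℝ := fun m => if m = 0 then 0 else Real.exp (j m) with he
  set M2 : Matrix (Fin (d + 1)) (Fin (d + 1)) ℝ := fun i m => M1 i m - e m * M1 i 0 with hM2
  have he0 : e 0 = 0 := by simp [he]
  have hM20 : ∀ i, M2 i 0 = M1 i 0 := by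
    intro i
    simp only [hM2, he0]
    ring
  have hM2det : M1.det = M2.det := by
    apply det_colOp M1 M2 e he0
    intro i m
    rw [hM20]
    simp only [hM2]
    ring
  have hM2m : ∀ i m, m ≠ 0 → M2 i m = M1 i m - Real.exp (j m) * M1 i 0 := by
    intro i m hm
    simp only [hM2, he, if_neg hm]
  have hexpj : ∀ m, Real.exp (j m) ≤ Real.exp G := by
    intro m
    apply Real.exp_le_exp.mpr
    exact_mod_cast hjG m
  have hE1 : 1 ≤ Real.exp G := Real.one_le_exp (by positivity)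
  have hG1' : (1 : ℝ) ≤ G := by exact_mod_cast hG1
  have hη : ∀ m, |M1 (ph 0) m - X * Real.exp (j m)| ≤ δ := by
    intro m
    rw [hM1row0, abs_sub_comm]
    have := hb' m
    rwa [show X * Real.exp (j m) - (b m + P'.eval (j m : ℝ)) =
      X * Real.exp (j m) - P'.eval (j m : ℝ) - b m by ring]
  have hX0 : |M1 (ph 0) 0 - X| ≤ δ := by
    have := hη 0
    rwa [hj0, Nat.cast_zero, Real.exp_zero, mul_one] at this
  have hD1 : 1 ≤ Real.exp G * (G : ℝ) ^ r :=
    one_le_mul_of_one_le_of_one_le hE1 (one_le_pow₀ hG1')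
  have hbound := det_bound_structured M2 ph hph (2 * X1) Q (Real.exp G * (G : ℝ) ^ r) I
    (2 * Real.exp G * δ) hQ1 hD1 (le_trans (by positivity) hI) hI1 (by positivity)
    (by
      rw [hM20]
      calc |M1 (ph 0) 0| = |X + (M1 (ph 0) 0 - X)| := by congr 1; ring
        _ ≤ |X| + |M1 (ph 0) 0 - X| := abs_add_le _ _
        _ ≤ X1 + δ := add_le_add hXX1 hX0
        _ ≤ 2 * X1 := by linarith)
    (by
      intro m hm
      rw [hM2m _ _ hm]
      have e1 : M1 (ph 0) m - Real.exp (j m) * M1 (ph 0) 0 =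
          (M1 (ph 0) m - X * Real.exp (j m)) - Real.exp (j m) * (M1 (ph 0) 0 - X) := by ring
      rw [e1]
      calc |(M1 (ph 0) m - X * Real.exp (j m)) - Real.exp (j m) * (M1 (ph 0) 0 - X)|
          ≤ |M1 (ph 0) m - X * Real.exp (j m)| + |Real.exp (j m) * (M1 (ph 0) 0 - X)| :=
            abs_sub _ _
        _ ≤ δ + Real.exp G * δ := by
            apply add_le_add (hη m)
            rw [abs_mul, abs_of_pos (Real.exp_pos _)]
            exact mul_le_mul (hexpj m) hX0 (abs_nonneg _) (by positivity)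
        _ ≤ 2 * Real.exp G * δ := by nlinarith)
    (by
      intro t
      rw [hM20, hM1row _ (hne t), hM0rowt, hj0, Nat.cast_zero]
      by_cases ht : (t : ℕ) = 0
      · rw [ht]; simp
      · rw [zero_pow ht]; simp)
    (by
      intro t m hm
      rw [hM2m _ _ hm, hM1row _ (hne t), hM1row _ (hne t), hM0rowt, hM0rowt, hj0, Nat.cast_zero]
      have hjmG : (j m : ℝ) ≤ G := by exact_mod_cast hjG m
      by_cases ht : (t : ℕ) = 0
      · rw [ht, pow_zero, pow_zero, mul_one]
        have h2 : 1 ≤ Real.exp (j m) := Real.one_le_exp (by positivity)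
        rw [abs_sub_comm, abs_of_nonneg (by linarith)]
        calc Real.exp (j m) - 1 ≤ Real.exp G := by linarith [hexpj m]
          _ ≤ Real.exp G * (G : ℝ) ^ r := le_mul_of_one_le_right (by positivity) (one_le_pow₀ hG1')
      · rw [zero_pow ht, mul_zero, sub_zero, abs_of_nonneg (by positivity)]
        calc (j m : ℝ) ^ (t : ℕ) ≤ (G : ℝ) ^ (t : ℕ) := pow_le_pow_left₀ (by positivity) hjmG _
          _ ≤ (G : ℝ) ^ r := pow_le_pow_right₀ hG1' (by have := t.2; omega)
          _ ≤ Real.exp G * (G : ℝ) ^ r := le_mul_of_one_le_left (by positivity) hE1)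
    (by
      intro i hi
      have hi0 : i ≠ ph 0 := fun h => hi 0 h.symm
      rw [hM20, hM1row _ hi0, hM0, Matrix.map_apply, hB2 i hi]
      exact (hTQ i).trans hQ)
    (by
      intro i hi m hm
      have hi0 : i ≠ ph 0 := fun h => hi 0 h.symm
      rw [hM2m _ _ hm, hM1row _ hi0, hM1row _ hi0, hM0, Matrix.map_apply, Matrix.map_apply,
        hB2 i hi]
      exact (hTI i m).trans hI)
  rw [← hM2det, hM1det] at hbound
  linarith

end Pool.Agent.Helper66.ER
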