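import Mathlib
import Pool.Agent.Helper66.ER.Core
import Pool.Agent.Helper32.ExpN.Params

/-!
Windows of length `N^γ` and approximations of `ξ e^n` by `(m / q) u` with `u` an `S`-unit.
-/

namespace Pool.Agent.Helper66.ER

open Pool.Agent.Helper32.ExpN Polynomial Filter
open scoped Nat

/-- A window of length `N^γ` contains at most `d` exceptional integers. -/
theorem window_bound (A ε : ℝ) (hA : 0 ≤ A) (hε : 0 < ε) :
    ∃ d : ℕ, ∃ γ : ℝ, 0 < γ ∧ γ < 1 ∧ ∀ᶠ N : ℕ in atTop, ∀ ξ : ℝ,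
      |ξ| ≤ Real.exp (A * N) →
      ∀ n : Fin (d + 1) → ℕ, StrictMono n → (∀ m, n m ≤ N) →
      (∀ m, n m ≤ n 0 + ⌊(N : ℝ) ^ γ⌋₊) → 1 / 2 ≤ |ξ| * Real.exp (n 0) →
      ∀ b : Fin (d + 1) → ℤ,
      ¬ ∀ m, |ξ * Real.exp (n m) - b m| ≤ Real.exp (-(ε * N)) := by
  obtain ⟨d, hd, γ, hγ0, hγ1, hev⟩ := params 0 A ε hA hε
  refine ⟨d, γ, hγ0, hγ1, ?_⟩
  have hcast : Tendsto (fun N : ℕ => (N : ℝ)) atTop atTop := tendsto_natCast_atTop_atTop
  have ev1 : ∀ᶠ N : ℕ in atTop, Real.log 4 / ε < (N : ℝ) := hcast.eventually_gt_atTop _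
  filter_upwards [hev, ev1, eventually_ge_atTop 1] with N hN h1 h2
  intro ξ hξ2 n hn hnN hnG hξ1 b hbad
  have hN1 : (1 : ℝ) ≤ N := by exact_mod_cast h2
  set G : ℕ := ⌊(N : ℝ) ^ γ⌋₊ with hG
  have hpow1 : (1 : ℝ) ≤ (N : ℝ) ^ γ := Real.one_le_rpow hN1 hγ0.le
  have hG1 : 1 ≤ G := by rw [hG, Nat.one_le_floor_iff]; exact hpow1
  obtain ⟨p, hp, hGp, Q, I, hQ1, hQ, hI, hI1, hfin⟩ := hN G hG1 (Nat.floor_le (by positivity))
  have he4 : 4 * Real.exp (-(ε * N)) < 1 := by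
    rw [div_lt_iff₀ hε] at h1
    have h3 : (4 : ℝ) < Real.exp (ε * N) := by
      rw [← Real.exp_log (show (0 : ℝ) < 4 by norm_num)]
      apply Real.exp_lt_exp.mpr
      linarith
    have h4 : Real.exp (ε * N) * Real.exp (-(ε * N)) = 1 := by
      rw [← Real.exp_add]
      simp
    have h5 := Real.exp_pos (-(ε * N))
    nlinarith
  refine window_core (d := d) (r := 0) hd n hn G hG1 hnG p hp hGp ξ (Real.exp ((A + 1) * N))
    (Real.exp (-(ε * N))) (0 : ℝ[X]) (by simp) (Real.exp_pos _).le ?_ ?_ ?_ ?_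
    b ?_ Q I hQ1 hQ hI hI1 hfin
  · rw [← Real.exp_zero]
    apply Real.exp_le_exp.mpr
    have : 0 ≤ ε * N := by positivity
    linarith
  · have : (((0 + 2)! : ℕ) : ℝ) = 2 := by norm_num [Nat.factorial]
    rw [this]
    linarith
  · have h3 : (n 0 : ℝ) ≤ N := by exact_mod_cast hnN 0
    calc |ξ| * Real.exp (n 0) ≤ Real.exp (A * N) * Real.exp N :=
          mul_le_mul hξ2 (Real.exp_le_exp.mpr h3) (by positivity) (by positivity)
      _ = Real.exp ((A + 1) * N) := by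
          rw [← Real.exp_add]
          congr 1
          ring
  · apply Real.one_le_exp
    positivity
  · intro m
    simpa using hbad m

/-- `x` is within `(u / q) ρ` of `(m / q) u` for a nonzero integer `m`, an integer `1 ≤ q ≤ Y`
and `u = ∏ p^(k p)` with `|k p| ≤ K` for `p ∈ S`. -/
def Near (S : Finset ℕ) (K Y ρ x : ℝ) : Prop :=
  ∃ (k : ℕ → ℤ) (q m : ℤ), (∀ p ∈ S, |(k p : ℝ)| ≤ K) ∧ 1 ≤ q ∧ (q : ℝ) ≤ Y ∧ m ≠ 0 ∧
    |x - (m / q : ℝ) * ∏ p ∈ S, (p : ℝ) ^ (k p)| ≤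
      (1 / q : ℝ) * (∏ p ∈ S, (p : ℝ) ^ (k p)) * ρ

theorem Near.mono {S : Finset ℕ} {K K' Y Y' ρ ρ' x : ℝ} (h : Near S K Y ρ x) (hK : K ≤ K')
    (hY : Y ≤ Y') (hρ : ρ ≤ ρ') : Near S K' Y' ρ' x := by
  obtain ⟨k, q, m, h1, h2, h3, h4, h5⟩ := h
  refine ⟨k, q, m, fun p hp => (h1 p hp).trans hK, h2, h3.trans hY, h4, h5.trans ?_⟩
  apply mul_le_mul_of_nonneg_left hρ
  have hq : (0 : ℝ) < q := by exact_mod_cast (by omega : (0 : ℤ) < q)
  have : 0 ≤ ∏ p ∈ S, (p : ℝ) ^ (k p) := Finset.prod_nonneg (fun p _ => by positivity)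
  positivity

theorem prod_zpow_eq_exp {S : Finset ℕ} (hS : ∀ p ∈ S, 2 ≤ p) (k : ℕ → ℤ) :
    ∏ p ∈ S, (p : ℝ) ^ (k p) = Real.exp (∑ p ∈ S, (k p : ℝ) * Real.log p) := by
  rw [Real.exp_sum]
  apply Finset.prod_congr rfl
  intro p hp
  have hp0 : (0 : ℝ) < p := by
    have := hS p hp
    exact_mod_cast (by omega : 0 < p)
  rw [← Real.rpow_intCast, Real.rpow_def_of_pos hp0, mul_comm]

theorem sum_log_nonneg {S : Finset ℕ} (hS : ∀ p ∈ S, 2 ≤ p) : 0 ≤ ∑ p ∈ S, Real.log p := by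
  apply Finset.sum_nonneg
  intro p hp
  apply Real.log_nonneg
  exact_mod_cast (by have := hS p hp; omega : 1 ≤ p)

theorem sum_mul_log_le {S : Finset ℕ} (hS : ∀ p ∈ S, 2 ≤ p) (f : ℕ → ℝ) (K : ℝ)
    (hf : ∀ p ∈ S, f p ≤ K) : ∑ p ∈ S, f p * Real.log p ≤ K * ∑ p ∈ S, Real.log p := by
  rw [Finset.mul_sum]
  apply Finset.sum_le_sum
  intro p hp
  apply mul_le_mul_of_nonneg_right (hf p hp)
  apply Real.log_nonneg
  exact_mod_cast (by have := hS p hp; omega : 1 ≤ p)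

/-- The contradiction for `d + 1` integers whose exponents are in the same cell. -/
theorem cell_core {S : Finset ℕ} (hS : ∀ p ∈ S, 2 ≤ p) {d : ℕ} {N : ℕ} {A ε δ ω ξ : ℝ}
    (hN : Real.exp (-(ε / 2 * N)) ≤ 1 / 2) (hε : 0 < ε) (hδ : 0 < δ)
    (hdδ : (d + 1) * δ ≤ ε / 4) (hω : ω * ∑ p ∈ S, Real.log p ≤ ε / 4)
    (hξ : |ξ| ≤ Real.exp N)
    (n : Fin (d + 1) → ℕ) (k : Fin (d + 1) → ℕ → ℤ) (q m : Fin (d + 1) → ℤ)
    (hk : ∀ i, ∀ p ∈ S, |(k i p : ℝ)| ≤ A * N) (hcell : ∀ i j, ∀ p ∈ S,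
      (k i p : ℝ) - k j p ≤ ω * N) (hq : ∀ i, 1 ≤ q i) (hqY : ∀ i, (q i : ℝ) ≤ Real.exp (δ * N))
    (hm : ∀ i, m i ≠ 0)
    (hnear : ∀ i, |ξ * Real.exp (n i) - (m i / q i : ℝ) * ∏ p ∈ S, (p : ℝ) ^ (k i p)| ≤
      (1 / q i : ℝ) * (∏ p ∈ S, (p : ℝ) ^ (k i p)) * Real.exp (-(ε * N))) :
    ∃ ξ' : ℝ, ∃ b : Fin (d + 1) → ℤ,
      |ξ'| ≤ Real.exp ((2 + ε + A * ∑ p ∈ S, Real.log p) * N) ∧
      1 / 2 ≤ |ξ'| * Real.exp (n 0) ∧
      ∀ i, |ξ' * Real.exp (n i) - b i| ≤ Real.exp (-(ε / 2 * N)) := by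
  classical
  set L : ℝ := ∑ p ∈ S, Real.log p with hL
  have hL0 : 0 ≤ L := sum_log_nonneg hS
  have hN0 : (0 : ℝ) ≤ N := by positivity
  -- the smallest exponents
  set kmin : ℕ → ℤ := fun p => Finset.univ.inf' ⟨0, Finset.mem_univ _⟩ (fun i => k i p) with hkmin
  have hkmin_le : ∀ i p, kmin p ≤ k i p := fun i p =>
    Finset.inf'_le (fun i => k i p) (Finset.mem_univ i)
  have hkmin_ex : ∀ p, ∃ i, kmin p = k i p := by
    intro p
    obtain ⟨i, _, hi⟩ := Finset.exists_mem_eq_inf' (s := (Finset.univ : Finset (Fin (d + 1))))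
      ⟨0, Finset.mem_univ _⟩ (fun i => k i p)
    exact ⟨i, hi⟩
  -- the multipliers
  set w : Fin (d + 1) → ℤ := fun i => ∏ p ∈ S, (p : ℤ) ^ ((k i p - kmin p).toNat) with hw
  set D : ℝ := ∏ p ∈ S, (p : ℝ) ^ (-kmin p) with hD
  have hpos : ∀ (f : ℕ → ℤ), 0 < ∏ p ∈ S, (p : ℝ) ^ (f p) := by
    intro f
    rw [prod_zpow_eq_exp hS]
    exact Real.exp_pos _
  have hwD : ∀ i, (w i : ℝ) = D * ∏ p ∈ S, (p : ℝ) ^ (k i p) := by
    intro i
    rw [hD, ← Finset.prod_mul_distrib]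
    simp only [hw]
    push_cast
    apply Finset.prod_congr rfl
    intro p hp
    have hp0 : (p : ℝ) ≠ 0 := by
      have := hS p hp
      exact_mod_cast (by omega : p ≠ 0)
    rw [← zpow_add₀ hp0, ← zpow_natCast, Int.toNat_of_nonneg (by have := hkmin_le i p; omega)]
    congr 1
    ring
  have hw1 : ∀ i, 1 ≤ w i := by
    intro i
    have h1 : 0 < w i := by
      simp only [hw]
      apply Finset.prod_pos
      intro p hp
      have := hS p hp
      have : (0 : ℤ) < p := by exact_mod_cast (by omega : 0 < p)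
      positivity
    omega
  have hwle : ∀ i, (w i : ℝ) ≤ Real.exp (ε / 4 * N) := by
    intro i
    rw [hwD, hD, ← Finset.prod_mul_distrib]
    have e1 : ∏ p ∈ S, (p : ℝ) ^ (-kmin p) * (p : ℝ) ^ (k i p) =
        ∏ p ∈ S, (p : ℝ) ^ (k i p - kmin p) := by
      apply Finset.prod_congr rfl
      intro p hp
      have hp0 : (p : ℝ) ≠ 0 := by
        have := hS p hp
        exact_mod_cast (by omega : p ≠ 0)
      rw [← zpow_add₀ hp0]
      congr 1
      ring
    rw [e1, prod_zpow_eq_exp hS (fun p => k i p - kmin p)]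
    apply Real.exp_le_exp.mpr
    have h2 := sum_mul_log_le hS (fun p => ((k i p - kmin p : ℤ) : ℝ)) (ω * N) (by
      intro p hp
      obtain ⟨j, hj⟩ := hkmin_ex p
      rw [hj]
      push_cast
      exact hcell i j p hp)
    refine h2.trans ?_
    calc ω * N * L = (ω * L) * N := by ring
      _ ≤ ε / 4 * N := mul_le_mul_of_nonneg_right hω hN0
  -- the product of the denominators
  set Q : ℤ := ∏ i, q i with hQ
  set Qi : Fin (d + 1) → ℤ := fun i => ∏ j ∈ Finset.univ.erase i, q j with hQi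
  have hQQi : ∀ i, Q = q i * Qi i := by
    intro i
    rw [hQ, hQi, Finset.mul_prod_erase _ _ (Finset.mem_univ i)]
  have hQi1 : ∀ i, 1 ≤ Qi i := by
    intro i
    have : 0 < Qi i := Finset.prod_pos (fun j _ => by have := hq j; omega)
    omega
  have hQ1 : 1 ≤ Q := by
    have : 0 < Q := Finset.prod_pos (fun j _ => by have := hq j; omega)
    omega
  have hQle : (Q : ℝ) ≤ Real.exp (ε / 4 * N) := by
    rw [hQ]
    push_cast
    calc ∏ i, (q i : ℝ) ≤ ∏ _i : Fin (d + 1), Real.exp (δ * N) := by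
          apply Finset.prod_le_prod
          · intro i _
            have := hq i
            exact_mod_cast (by omega : (0 : ℤ) ≤ q i)
          · intro i _
            exact hqY i
      _ = Real.exp (((d + 1) * δ) * N) := by
          rw [Finset.prod_const, Finset.card_univ, Fintype.card_fin, ← Real.exp_nat_mul]
          congr 1
          push_cast
          ring
      _ ≤ _ := by
          apply Real.exp_le_exp.mpr
          exact mul_le_mul_of_nonneg_right hdδ hN0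
  have hQile : ∀ i, (Qi i : ℝ) ≤ Real.exp (ε / 4 * N) := by
    intro i
    refine le_trans ?_ hQle
    have h1 : Qi i ≤ Q := by
      rw [hQQi i]
      have := hQi1 i
      have := hq i
      nlinarith
    exact_mod_cast h1
  have hD0 : 0 < D := hpos _
  -- the error
  have herr : ∀ i, |(Q : ℝ) * D * ξ * Real.exp (n i) - ((Qi i * w i * m i : ℤ) : ℝ)| ≤
      Real.exp (-(ε / 2 * N)) := by
    intro i
    set u : ℝ := ∏ p ∈ S, (p : ℝ) ^ (k i p) with hu
    have hu0 : 0 < u := hpos _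
    have hqi : (0 : ℝ) < q i := by
      have := hq i
      exact_mod_cast (by omega : (0 : ℤ) < q i)
    have e1 : (Q : ℝ) * D * ξ * Real.exp (n i) - ((Qi i * w i * m i : ℤ) : ℝ) =
        ((Qi i : ℝ) * q i * D) * (ξ * Real.exp (n i) - (m i / q i : ℝ) * u) := by
      push_cast
      rw [hwD i, ← hu, hQQi i]
      push_cast
      field_simp
    rw [e1, abs_mul]
    have hQi0 : (0 : ℝ) < Qi i := by
      have := hQi1 i
      exact_mod_cast (by omega : (0 : ℤ) < Qi i)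
    have hc0 : 0 < (Qi i : ℝ) * q i * D := by positivity
    rw [abs_of_pos hc0]
    calc (Qi i : ℝ) * q i * D * |ξ * Real.exp (n i) - (m i / q i : ℝ) * u|
        ≤ (Qi i : ℝ) * q i * D * ((1 / q i : ℝ) * u * Real.exp (-(ε * N))) :=
          mul_le_mul_of_nonneg_left (hnear i) hc0.le
      _ = (Qi i : ℝ) * (w i) * Real.exp (-(ε * N)) := by
          rw [hwD i, ← hu]
          field_simp
      _ ≤ Real.exp (ε / 4 * N) * Real.exp (ε / 4 * N) * Real.exp (-(ε * N)) := by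
          apply mul_le_mul_of_nonneg_right _ (Real.exp_pos _).le
          apply mul_le_mul (hQile i) (hwle i) _ (Real.exp_pos _).le
          have := hw1 i
          exact_mod_cast (by omega : (0 : ℤ) ≤ w i)
      _ = Real.exp (-(ε / 2 * N)) := by
          rw [← Real.exp_add, ← Real.exp_add]
          congr 1
          ring
  refine ⟨(Q : ℝ) * D * ξ, fun i => Qi i * w i * m i, ?_, ?_, herr⟩
  · rw [abs_mul, abs_mul, abs_of_pos hD0]
    have hQ0 : (0 : ℝ) ≤ Q := by exact_mod_cast (by omega : (0 : ℤ) ≤ Q)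
    rw [abs_of_nonneg hQ0]
    have hDle : D ≤ Real.exp (A * L * N) := by
      rw [hD, prod_zpow_eq_exp hS (fun p => -kmin p)]
      apply Real.exp_le_exp.mpr
      have h2 := sum_mul_log_le hS (fun p => ((-kmin p : ℤ) : ℝ)) (A * N) (by
        intro p hp
        obtain ⟨j, hj⟩ := hkmin_ex p
        rw [hj]
        push_cast
        have := neg_abs_le (k j p : ℝ)
        have := hk j p hp
        linarith)
      refine h2.trans (le_of_eq ?_)
      rw [← hL]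
      ring
    calc (Q : ℝ) * D * |ξ| ≤ Real.exp (ε / 4 * N) * Real.exp (A * L * N) * Real.exp N := by
          apply mul_le_mul (mul_le_mul hQle hDle hD0.le (Real.exp_pos _).le) hξ (abs_nonneg _)
          positivity
      _ = Real.exp (ε / 4 * N + A * L * N + N) := by rw [Real.exp_add, Real.exp_add]
      _ ≤ _ := by
          apply Real.exp_le_exp.mpr
          nlinarith
  · have h0 := herr 0
    have hb : (1 : ℝ) ≤ |((Qi 0 * w 0 * m 0 : ℤ) : ℝ)| := by
      have h1 : Qi 0 * w 0 * m 0 ≠ 0 := by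
        apply mul_ne_zero (mul_ne_zero _ _) (hm 0)
        · have := hQi1 0; omega
        · have := hw1 0; omega
      exact_mod_cast Int.one_le_abs h1
    have h2 := abs_sub_abs_le_abs_sub (((Qi 0 * w 0 * m 0 : ℤ) : ℝ))
      ((Q : ℝ) * D * ξ * Real.exp (n 0))
    rw [abs_sub_comm] at h2
    have h3 : |(Q : ℝ) * D * ξ * Real.exp (n 0)| = |(Q : ℝ) * D * ξ| * Real.exp (n 0) := by
      rw [abs_mul, abs_of_pos (Real.exp_pos (n 0 : ℝ))]
    rw [← h3]
    linarith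

end Pool.Agent.Helper66.ER
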