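import Mathlib
import Pool.Agent.Helper66.ER.Window

/-!
Counting the exceptional integers.
-/

namespace Pool.Agent.Helper66.ER

open Filter
open scoped Nat

/-- The counting function of the exceptional integers for large `N`. -/
theorem count_bound {S : Finset ℕ} (hS : ∀ p ∈ S, 2 ≤ p) (A ε : ℝ) (hA : 0 ≤ A) (hε : 0 < ε) :
    ∃ c δ C : ℝ, 0 < c ∧ c < 1 ∧ 0 < δ ∧ 0 < C ∧ ∀ᶠ N : ℕ in atTop, ∀ ξ : ℝ,
      |ξ| ≤ Real.exp N →
      ({n : ℕ | 1 ≤ n ∧ n ≤ N ∧ Near S (A * N) (Real.exp (δ * N)) (Real.exp (-(ε * N)))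
        (ξ * Real.exp n)}.ncard : ℝ) ≤ C * (N : ℝ) ^ (1 - c) := by
  classical
  set L : ℝ := ∑ p ∈ S, Real.log p with hL
  have hL0 : 0 ≤ L := sum_log_nonneg hS
  obtain ⟨d, γ, hγ0, hγ1, hev⟩ := window_bound (2 + ε + A * L) (ε / 2) (by positivity)
    (by positivity)
  set δ : ℝ := ε / (4 * (d + 1)) with hδ
  have hδ0 : 0 < δ := by positivity
  have hdδ : (d + 1) * δ ≤ ε / 4 := by
    rw [hδ]
    apply le_of_eq
    field_simp
  set ω : ℝ := ε / (4 * (L + 1)) with hω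
  have hω0 : 0 < ω := by positivity
  have hωL : ω * L ≤ ε / 4 := by
    rw [hω, div_mul_eq_mul_div, div_le_div_iff₀ (by positivity) (by norm_num)]
    nlinarith
  set M : ℤ := ⌈A / ω⌉ + 1 with hM
  have hM0 : 0 ≤ M := by
    have : 0 ≤ ⌈A / ω⌉ := Int.ceil_nonneg (by positivity)
    omega
  -- the number of cells
  set cells : Finset (S → ℤ) := Fintype.piFinset (fun _ => Finset.Icc (-M) M) with hcells
  set K : ℕ := cells.card with hK
  refine ⟨γ, δ, 3 * ((d + 1) * (K + 1)), hγ0, hγ1, hδ0, by positivity, ?_⟩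
  have hcast : Tendsto (fun N : ℕ => (N : ℝ)) atTop atTop := tendsto_natCast_atTop_atTop
  have ev1 : ∀ᶠ N : ℕ in atTop, Real.log 2 / (ε / 2) < (N : ℝ) := hcast.eventually_gt_atTop _
  filter_upwards [hev, ev1, eventually_ge_atTop 1] with N hN h1 hN1
  intro ξ hξ
  have hN1' : (1 : ℝ) ≤ N := by exact_mod_cast hN1
  have hexp : Real.exp (-(ε / 2 * N)) ≤ 1 / 2 := by
    rw [div_lt_iff₀ (by positivity)] at h1
    rw [Real.exp_neg, ← one_div]
    apply one_div_le_one_div_of_le (by norm_num)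
    calc (2 : ℝ) = Real.exp (Real.log 2) := (Real.exp_log (by norm_num)).symm
      _ ≤ Real.exp (ε / 2 * N) := by
        apply Real.exp_le_exp.mpr
        linarith
  have hpow1 : (1 : ℝ) ≤ (N : ℝ) ^ γ := Real.one_le_rpow hN1' hγ0.le
  set g : ℕ := ⌊(N : ℝ) ^ γ⌋₊ with hg
  have hg1 : 1 ≤ g := by rw [hg, Nat.one_le_floor_iff]; exact hpow1
  set T : Finset ℕ := (Finset.Icc 1 N).filter (fun n =>
    Near S (A * N) (Real.exp (δ * N)) (Real.exp (-(ε * N))) (ξ * Real.exp n)) with hT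
  have hset : {n : ℕ | 1 ≤ n ∧ n ≤ N ∧ Near S (A * N) (Real.exp (δ * N))
      (Real.exp (-(ε * N))) (ξ * Real.exp n)} = (T : Set ℕ) := by
    ext n
    simp only [hT, Set.mem_ofPred_eq, Finset.coe_filter, Finset.mem_Icc]
    tauto
  rw [hset, Set.ncard_coe_finset]
  -- choose the data
  have hch : ∀ n : ℕ, ∃ (k : ℕ → ℤ) (q m : ℤ), n ∈ T → (∀ p ∈ S, |(k p : ℝ)| ≤ A * N) ∧ 1 ≤ q ∧
      (q : ℝ) ≤ Real.exp (δ * N) ∧ m ≠ 0 ∧
      |ξ * Real.exp n - (m / q : ℝ) * ∏ p ∈ S, (p : ℝ) ^ (k p)| ≤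
        (1 / q : ℝ) * (∏ p ∈ S, (p : ℝ) ^ (k p)) * Real.exp (-(ε * N)) := by
    intro n
    by_cases hn : n ∈ T
    · obtain ⟨k, q, m, h⟩ := (Finset.mem_filter.mp hn).2
      exact ⟨k, q, m, fun _ => h⟩
    · exact ⟨0, 0, 0, fun h => absurd h hn⟩
  choose k q m hdata using hch
  set cell : ℕ → (S → ℤ) := fun n p => ⌊(k n p : ℝ) / (ω * N)⌋ with hcell
  have hcellmem : ∀ n ∈ T, cell n ∈ cells := by
    intro n hn
    rw [hcells, Fintype.mem_piFinset]
    intro p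
    have h2 := (hdata n hn).1 p p.2
    have hωN : 0 < ω * N := by positivity
    have h3 : |(k n p : ℝ) / (ω * N)| ≤ A / ω := by
      rw [abs_div, abs_of_pos hωN, div_le_div_iff₀ hωN hω0]
      calc |(k n p : ℝ)| * ω ≤ (A * N) * ω := mul_le_mul_of_nonneg_right h2 hω0.le
        _ = A * (ω * N) := by ring
    rw [abs_le] at h3
    rw [Finset.mem_Icc]
    have h4 : A / ω ≤ ⌈A / ω⌉ := Int.le_ceil _
    constructor
    · apply Int.le_floor.mpr
      rw [hM]
      push_cast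
      linarith [h3.1]
    · have h5 : (⌊(k n p : ℝ) / (ω * N)⌋ : ℝ) ≤ (⌈A / ω⌉ : ℝ) + 1 := by
        have := Int.floor_le ((k n p : ℝ) / (ω * N))
        linarith [h3.2]
      simp only [hcell]
      rw [hM]
      exact_mod_cast h5
  have hfib : ∀ a ∈ T.image (fun n => (n / g, cell n)),
      (T.filter (fun n => (n / g, cell n) = a)).card ≤ d := by
    intro a _
    by_contra hcon
    push Not at hcon
    let e := Finset.orderEmbOfCardLe (T.filter (fun n => (n / g, cell n) = a)) (k := d + 1) hcon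
    have hmem : ∀ i, e i ∈ T.filter (fun n => (n / g, cell n) = a) := fun i =>
      Finset.orderEmbOfCardLe_mem _ _ i
    have hmemT : ∀ i, e i ∈ T := fun i => (Finset.mem_filter.mp (hmem i)).1
    have hmemN : ∀ i, e i ≤ N := by
      intro i
      have h1 := hmemT i
      simp only [hT, Finset.mem_filter, Finset.mem_Icc] at h1
      exact h1.1.2
    have hdiv : ∀ i, e i / g = a.1 := fun i => by
      have := (Finset.mem_filter.mp (hmem i)).2
      exact congrArg Prod.fst this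
    have hcc : ∀ i, cell (e i) = a.2 := fun i => by
      have := (Finset.mem_filter.mp (hmem i)).2
      exact congrArg Prod.snd this
    obtain ⟨ξ', b, hb1, hb2, hb3⟩ := cell_core (S := S) hS (d := d) (N := N) (A := A) (ε := ε)
      (δ := δ) (ω := ω) (ξ := ξ) hexp hε hδ0 hdδ hωL hξ (fun i => e i) (fun i => k (e i))
      (fun i => q (e i)) (fun i => m (e i))
      (fun i => (hdata _ (hmemT i)).1) (by
        intro i j p hp
        have h2 : cell (e i) ⟨p, hp⟩ = cell (e j) ⟨p, hp⟩ := by rw [hcc i, hcc j]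
        simp only [hcell] at h2
        have hωN : 0 < ω * N := by positivity
        have h3 := Int.lt_floor_add_one ((k (e i) p : ℝ) / (ω * N))
        have h4 := Int.floor_le ((k (e j) p : ℝ) / (ω * N))
        rw [h2] at h3
        have h5 : (k (e i) p : ℝ) / (ω * N) - (k (e j) p : ℝ) / (ω * N) ≤ 1 := by linarith
        rw [← sub_div, div_le_one hωN] at h5
        exact h5)
      (fun i => (hdata _ (hmemT i)).2.1) (fun i => (hdata _ (hmemT i)).2.2.1)
      (fun i => (hdata _ (hmemT i)).2.2.2.1) (fun i => (hdata _ (hmemT i)).2.2.2.2)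
    refine hN ξ' hb1 (fun i => e i) e.strictMono hmemN ?_ hb2 b hb3
    intro i
    have h1 := hdiv i
    have h2 := hdiv 0
    have h3 : e i < g * a.1 + g := by
      have := Nat.lt_mul_div_succ (e i) (show 0 < g by omega)
      rw [h1] at this
      linarith
    have h4 : g * a.1 ≤ e 0 := by
      have := Nat.mul_div_le (e 0) g
      rwa [h2] at this
    change e i ≤ e 0 + g
    omega
  have h1 := Finset.card_le_mul_card_image (s := T) (f := fun n => (n / g, cell n)) d hfib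
  have h2 : (T.image (fun n => (n / g, cell n))).card ≤ (N / g + 1) * K := by
    rw [← Finset.card_range (N / g + 1), hK, ← Finset.card_product]
    apply Finset.card_le_card
    intro a ha
    rw [Finset.mem_image] at ha
    obtain ⟨n, hn, rfl⟩ := ha
    rw [Finset.mem_product]
    refine ⟨?_, hcellmem n hn⟩
    simp only [hT, Finset.mem_filter, Finset.mem_Icc] at hn
    rw [Finset.mem_range]
    exact Nat.lt_succ_of_le (Nat.div_le_div_right hn.1.2)
  have h3 : (T.card : ℝ) ≤ (d * K) * ((N : ℝ) / g + 1) := by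
    have h4 : T.card ≤ d * ((N / g + 1) * K) := h1.trans (Nat.mul_le_mul_left _ h2)
    calc (T.card : ℝ) ≤ ((d * ((N / g + 1) * K) : ℕ) : ℝ) := by exact_mod_cast h4
      _ = (d * K) * (((N / g : ℕ) : ℝ) + 1) := by push_cast; ring
      _ ≤ (d * K) * ((N : ℝ) / g + 1) := by
        apply mul_le_mul_of_nonneg_left _ (by positivity)
        have := @Nat.cast_div_le ℝ _ _ _ N g
        linarith
  have hN0 : (0 : ℝ) < N := by linarith
  have h4 : (N : ℝ) ^ (1 - γ) = N / (N : ℝ) ^ γ := by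
    rw [Real.rpow_sub hN0, Real.rpow_one]
  have h5 : (N : ℝ) ^ γ / 2 ≤ g := by
    have := Nat.lt_floor_add_one ((N : ℝ) ^ γ)
    rw [← hg] at this
    have hg1' : (1 : ℝ) ≤ g := by exact_mod_cast hg1
    linarith
  have h6 : (N : ℝ) / g ≤ 2 * (N : ℝ) ^ (1 - γ) := by
    rw [h4, div_le_iff₀ (by linarith)]
    calc (N : ℝ) = 2 * (N / (N : ℝ) ^ γ) * ((N : ℝ) ^ γ / 2) := by field_simp
      _ ≤ 2 * (N / (N : ℝ) ^ γ) * g := mul_le_mul_of_nonneg_left h5 (by positivity)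
  have h7 : 1 ≤ (N : ℝ) ^ (1 - γ) := Real.one_le_rpow hN1' (by linarith)
  have hd0 : (0 : ℝ) ≤ d := by positivity
  have hK0 : (0 : ℝ) ≤ K := by positivity
  calc (T.card : ℝ) ≤ (d * K) * ((N : ℝ) / g + 1) := h3
    _ ≤ (d * K) * (3 * (N : ℝ) ^ (1 - γ)) :=
        mul_le_mul_of_nonneg_left (by linarith) (by positivity)
    _ ≤ ((d + 1) * (K + 1)) * (3 * (N : ℝ) ^ (1 - γ)) := by
        apply mul_le_mul_of_nonneg_right _ (by positivity)
        nlinarith
    _ = 3 * ((d + 1) * (K + 1)) * (N : ℝ) ^ (1 - γ) := by ring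

/-- The trivial bound. -/
theorem ncard_le (N : ℕ) (q : ℕ → Prop) : {n : ℕ | 1 ≤ n ∧ n ≤ N ∧ q n}.ncard ≤ N := by
  have h1 : {n : ℕ | 1 ≤ n ∧ n ≤ N ∧ q n} ⊆ (Finset.Icc 1 N : Set ℕ) := by
    intro n hn
    simp only [Finset.coe_Icc, Set.mem_Icc]
    exact ⟨hn.1, hn.2.1⟩
  have h2 := Set.ncard_le_ncard h1 (Finset.finite_toSet _)
  rw [Set.ncard_coe_finset] at h2
  simpa using h2

theorem finite_set (N : ℕ) (q : ℕ → Prop) : {n : ℕ | 1 ≤ n ∧ n ≤ N ∧ q n}.Finite := by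
  apply (Finset.finite_toSet (Finset.Icc 1 N)).subset
  intro n hn
  simp only [Finset.coe_Icc, Set.mem_Icc]
  exact ⟨hn.1, hn.2.1⟩

/-- The uniform bound. -/
theorem part_one {S : Finset ℕ} (hS : ∀ p ∈ S, 2 ≤ p) (A ε : ℝ) (hA : 0 ≤ A) (hε : 0 < ε) :
    ∃ c δ C : ℝ, 0 < c ∧ c < 1 ∧ 0 < δ ∧ 0 < C ∧ ∀ N : ℕ, 1 ≤ N → ∀ ξ : ℝ,
      |ξ| ≤ Real.exp N →
      ({n : ℕ | 1 ≤ n ∧ n ≤ N ∧ Near S (A * N) (Real.exp (δ * N)) (Real.exp (-(ε * N)))
        (ξ * Real.exp n)}.ncard : ℝ) ≤ C * (N : ℝ) ^ (1 - c) := by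
  obtain ⟨c, δ, C, hc0, hc1, hδ, hC, hev⟩ := count_bound hS A ε hA hε
  obtain ⟨N0, hN0⟩ := eventually_atTop.mp hev
  refine ⟨c, δ, max C (N0 : ℝ), hc0, hc1, hδ, lt_of_lt_of_le hC (le_max_left _ _), ?_⟩
  intro N hN ξ hξ
  have hN1 : (1 : ℝ) ≤ N := by exact_mod_cast hN
  have h1 : 1 ≤ (N : ℝ) ^ (1 - c) := Real.one_le_rpow hN1 (by linarith)
  by_cases h : N0 ≤ N
  · refine (hN0 N h ξ hξ).trans ?_
    exact mul_le_mul_of_nonneg_right (le_max_left _ _) (by linarith)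
  · push Not at h
    have h2 : ({n : ℕ | 1 ≤ n ∧ n ≤ N ∧ Near S (A * N) (Real.exp (δ * N))
        (Real.exp (-(ε * N))) (ξ * Real.exp n)}.ncard : ℝ) ≤ N := by
      exact_mod_cast ncard_le N _
    have h3 : (N : ℝ) ≤ N0 := by exact_mod_cast h.le
    calc _ ≤ (N : ℝ) := h2
      _ ≤ max C (N0 : ℝ) * 1 := by rw [mul_one]; exact h3.trans (le_max_right _ _)
      _ ≤ max C (N0 : ℝ) * (N : ℝ) ^ (1 - c) :=
        mul_le_mul_of_nonneg_left h1 (hC.le.trans (le_max_left _ _))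

end Pool.Agent.Helper66.ER
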